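import Pool.Agent.H80.BG.Core

/-! # Basic generation passes down in the Tukey order (Q1) -/

set_option autoImplicit false

namespace Pool.Agent.Results.MP_af8240_lc.BasicGenerationTukey

open Pool.Agent.H80.BG

/-- **Theorem (Q1).** Let `V` be an ultrafilter and `U` a filter, for instance an ultrafilter, on
countable sets. If `V` is Tukey below `U` and `U` is basically generated, then `V` is basically
generated. -/
theorem result :
    ∀ (α β : Type) [Countable α] [Countable β] (U : Filter α) (V : Ultrafilter β),
      TukeyBelow (V : Filter β) U → BasicallyGenerated U → BasicallyGenerated (V : Filter β) :=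
  fun _ _ _ _ U V hT hU => main_q1 U V hT hU

end Pool.Agent.Results.MP_af8240_lc.BasicGenerationTukey
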