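import Pool.Agent.H80.BG.Core

/-! # Ultrafilters Tukey below Fubini iterates of p-points are basically generated (Q2) -/

set_option autoImplicit false

namespace Pool.Agent.Results.MP_af8240_lc.BelowFubiniIterates

open Pool.Agent.H80.BG

/-- **Theorem (Q2).** If the ultrafilter `V` on a countable set is Tukey below a Fubini iterate `U`
of p-points, then `V` is basically generated. -/
theorem result :
    ∀ (α β : Type) [Countable β] (U : Ultrafilter α) (V : Ultrafilter β),
      FubiniIterate α U → TukeyBelow (V : Filter β) (U : Filter α) →
        BasicallyGenerated (V : Filter β) :=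
  fun _ _ _ U V hF hT => main_q2 U V hF hT

end Pool.Agent.Results.MP_af8240_lc.BelowFubiniIterates
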